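import Pool.Agent.TH122.HN.Prod

/-!
# Primitive classes of the products with powers of a curve
-/

open CategoryTheory AlgebraicGeometry

universe u w

set_option autoImplicit false
set_option linter.unusedSectionVars false

namespace Pool.Agent.TH122.HN

open Pool.Agent.H914 Pool.Agent.H914.VarClass Pool.Agent.H914.VarClass.Obj Pool.Agent.W492.BB
  Pool.Agent.W550.Corr Pool.Agent.TH133 Pool.Agent.TH127.LW

variable {k : Type u} [Field k] {𝒱 : VarClass k} {C : TheoryData.{u, 0, 0} 𝒱 ℚ}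
  [hC : IsChowProj C] {K : Type w} [Field K]
  {H : WeilTheoryData.{u, 0, w} C K} [hH : IsWeilProj H] {b : ∀ X : 𝒱.Obj, C.A X → C.A X → ℝ}
  {E : 𝒱.Obj} {o : C.A E}

section val

include hC hH

lemma up_eq (hE : IsPt C E o) {Z : 𝒱.Obj} (Λ x : C.A Z) (m : ℕ) :
    (C.pull (fst Z E) Λ + C.pull (snd Z E) o) ^ (m + 1) * C.pull (fst Z E) x =
      C.pull (fst Z E) (Λ ^ (m + 1) * x) +
        ((m : ℚ) + 1) • (C.pull (fst Z E) (Λ ^ m * x) * C.pull (snd Z E) o) := by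
  rw [a1' (comm _) (O_sq hE Z), map_mul, map_mul, map_pow, map_pow]

lemma up_val (hb : IsHeightTheory H b) (hE : IsPt C E o) {Z : 𝒱.Obj} (Λ : C.A Z) {x y : C.A Z}
    (hx : H.cl x = 0) (hy : H.cl y = 0) (m : ℕ) :
    b (Z.prod E) (C.pull (fst Z E) x)
      ((C.pull (fst Z E) Λ + C.pull (snd Z E) o) ^ (m + 1) * C.pull (fst Z E) y) =
      ((m : ℝ) + 1) * b Z x (Λ ^ m * y) := by
  have h1 : H.cl (Λ ^ (m + 1) * y) = 0 := cl_mul0 hy
  have h2 : H.cl (Λ ^ m * y) = 0 := cl_mul0 hy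
  rw [up_eq hE (H := H), add_right hb (cl_pull0 _ hx) (cl_pull0 _ h1)
    (cl_smul0 _ (cl_mul0' (cl_pull0 _ h2))), f1 hb hE hx h1,
    smul_right hb _ (cl_pull0 _ hx) (cl_mul0' (cl_pull0 _ h2)), f3 hb hE hx h2]
  push_cast
  ring

/-- the class on `Z × E` one codimension higher and of weight one less -/
noncomputable def dn (o : C.A E) {Z : 𝒱.Obj} (Λ x : C.A Z) (q : ℚ) : C.A (Z.prod E) :=
  C.pull (fst Z E) Λ * C.pull (fst Z E) x +
    (-q) • (C.pull (fst Z E) x * C.pull (snd Z E) o)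

lemma dn_eq (hE : IsPt C E o) {Z : 𝒱.Obj} (Λ x : C.A Z) (q : ℚ) (m : ℕ) :
    (C.pull (fst Z E) Λ + C.pull (snd Z E) o) ^ m * dn o Λ x q =
      C.pull (fst Z E) (Λ ^ (m + 1) * x) +
        ((m : ℚ) - q) • (C.pull (fst Z E) (Λ ^ m * x) * C.pull (snd Z E) o) := by
  unfold dn
  rw [a2' (comm _) (O_sq hE Z), map_mul, map_mul, map_pow, map_pow]

lemma dn_val (hb : IsHeightTheory H b) (hE : IsPt C E o) {Z : 𝒱.Obj} (Λ : C.A Z) {x y : C.A Z}
    (hx : H.cl x = 0) (hy : H.cl y = 0) (m : ℕ) :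
    b (Z.prod E) (dn o Λ x ((m : ℚ) + 1))
      ((C.pull (fst Z E) Λ + C.pull (snd Z E) o) ^ m * dn o Λ y ((m : ℚ) + 1)) =
      -((m : ℝ) + 2) * b Z x (Λ ^ (m + 1) * y) := by
  have h1 : H.cl (Λ ^ (m + 1) * y) = 0 := cl_mul0 hy
  have h2 : H.cl (Λ ^ m * y) = 0 := cl_mul0 hy
  have h3 : H.cl (Λ * x) = 0 := cl_mul0 hx
  have h4 : b Z (Λ * x) (Λ ^ m * y) = b Z x (Λ ^ (m + 1) * y) := by
    rw [hb.adj' Z Λ x _ hx h2, ← mul_assoc, ← pow_succ']
  have e1 : (m : ℚ) - ((m : ℚ) + 1) = -1 := by ring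
  rw [dn_eq hE (H := H), e1]
  unfold dn
  rw [← map_mul]
  have g1 := cl_pull0 (H := H) (fst Z E) h1
  have g2 := cl_mul0' (H := H) (a := C.pull (snd Z E) o) (cl_pull0 (H := H) (fst Z E) h2)
  have g3 := cl_pull0 (H := H) (fst Z E) h3
  have g4 := cl_mul0' (H := H) (a := C.pull (snd Z E) o) (cl_pull0 (H := H) (fst Z E) hx)
  rw [hb.add_left _ _ _ _ g3 (cl_smul0 _ g4) (cl_add0 g1 (cl_smul0 _ g2)),
    smul_left hb _ g4 (cl_add0 g1 (cl_smul0 _ g2)), add_right hb g3 g1 (cl_smul0 _ g2),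
    add_right hb g4 g1 (cl_smul0 _ g2), smul_right hb _ g3 g2, smul_right hb _ g4 g2,
    f1 hb hE h3 h1, f3 hb hE h3 h2, f2 hb hE hx h1, f4 hb hE hx h2, h4]
  push_cast
  ring

end val

/-- the `v a` are linearly independent primitive homologically trivial classes of codimension `i`
and weight `m` -/
structure Good (H : WeilTheoryData.{u, 0, w} C K) (P : Σ X : 𝒱.Obj, C.A X) (i m : ℕ) {r : ℕ}
    (v : Fin r → C.A P.1) : Prop where
  pol : C.Deg 1 P.2
  hom : ∀ a, HomCycle H P.1 i (v a)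
  num : 2 * i + m = P.1.dim + 1
  prim : ∀ a, P.2 ^ (m + 1) * v a = 0
  li : LinearIndependent ℚ v

/-- the numbers `(-1)^i b(v a, ℓ^m v d)` -/
noncomputable def val (b : ∀ X : 𝒱.Obj, C.A X → C.A X → ℝ) (P : Σ X : 𝒱.Obj, C.A X) (i m : ℕ)
    {r : ℕ} (v : Fin r → C.A P.1) (a d : Fin r) : ℝ :=
  (-1 : ℝ) ^ i * b P.1 (v a) (P.2 ^ m * v d)

section chain

variable {r : ℕ}

include hC hH

lemma step_pol (hE : IsPt C E o) {P : Σ X : 𝒱.Obj, C.A X} (h : C.Deg 1 P.2) :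
    C.Deg 1 (step E o P).2 := by
  have hT : IsTheory C 1 := hC.toIsChow.isTheory
  exact Submodule.add_mem _ (C.pull_mem _ h) (C.pull_mem _ hE.deg)

lemma up (hb : IsHeightTheory H b) (hE : IsPt C E o) {P : Σ X : 𝒱.Obj, C.A X} {i m : ℕ}
    {v : Fin r → C.A P.1} (h : Good H P i m v) :
    ∃ v' : Fin r → C.A (step E o P).1, Good H (step E o P) i (m + 1) v' ∧
      ∀ a d, val b (step E o P) i (m + 1) v' a d = ((m : ℝ) + 1) * val b P i m v a d := by
  have hT : IsTheory C 1 := hC.toIsChow.isTheory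
  refine ⟨fun a => C.pull (fst P.1 E) (v a), ⟨step_pol (H := H) hE h.pol,
    fun a => ⟨C.pull_mem _ (h.hom a).1, cl_pull0 _ (h.hom a).2⟩, ?_, fun a => ?_, ?_⟩,
    fun a d => ?_⟩
  · have := h.num
    have h2 : (step E o P).1.dim = P.1.dim + E.dim := rfl
    rw [h2, hE.dim]
    omega
  · change (C.pull (fst P.1 E) P.2 + C.pull (snd P.1 E) o) ^ (m + 1 + 1) * _ = 0
    rw [up_eq hE (H := H), h.prim a]
    have h3 : P.2 ^ (m + 1 + 1) * v a = 0 := by
      rw [pow_succ', mul_assoc, h.prim a, mul_zero]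
    rw [h3, map_zero, zero_mul, smul_zero, add_zero]
  · let f : C.A (P.1.prod E) →ₗ[ℚ] C.A P.1 :=
      C.push (fst P.1 E) ∘ₗ LinearMap.mulRight ℚ (C.pull (snd P.1 E) o)
    have h1 : LinearIndependent ℚ (f ∘ fun a => C.pull (fst P.1 E) (v a)) := by
      have h2 : (f ∘ fun a => C.pull (fst P.1 E) (v a)) = v := by
        funext a
        exact push_pull_O hE P.1 (v a)
      rw [h2]
      exact h.li
    exact LinearIndependent.of_comp f h1
  · unfold val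
    change (-1 : ℝ) ^ i * b (P.1.prod E) _ ((C.pull (fst P.1 E) P.2 + C.pull (snd P.1 E) o) ^ (m + 1)
      * _) = _
    rw [up_val hb hE P.2 (h.hom a).2 (h.hom d).2 m]
    ring

lemma down (hb : IsHeightTheory H b) (hE : IsPt C E o) {P : Σ X : 𝒱.Obj, C.A X} {i m : ℕ}
    {v : Fin r → C.A P.1} (h : Good H P i (m + 1) v) :
    ∃ v' : Fin r → C.A (step E o P).1, Good H (step E o P) (i + 1) m v' ∧
      ∀ a d, val b (step E o P) (i + 1) m v' a d = ((m : ℝ) + 2) * val b P i (m + 1) v a d := by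
  have hT : IsTheory C 1 := hC.toIsChow.isTheory
  refine ⟨fun a => dn o P.2 (v a) ((m : ℚ) + 1), ⟨step_pol (H := H) hE h.pol,
    fun a => ⟨?_, ?_⟩, ?_, fun a => ?_, ?_⟩, fun a d => ?_⟩
  · have h1 : C.Deg (1 + i) (C.pull (fst P.1 E) P.2 * C.pull (fst P.1 E) (v a)) :=
      C.mul_mem (C.pull_mem _ h.pol) (C.pull_mem _ (h.hom a).1)
    have h2 : C.Deg (i + 1) (C.pull (fst P.1 E) (v a) * C.pull (snd P.1 E) o) :=
      C.mul_mem (C.pull_mem _ (h.hom a).1) (C.pull_mem _ hE.deg)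
    rw [add_comm] at h1
    rw [Nat.cast_succ]
    exact Submodule.add_mem _ h1 (Submodule.smul_mem _ _ h2)
  · exact cl_add0 (cl_mul0 (cl_pull0 _ (h.hom a).2))
      (cl_smul0 _ (cl_mul0' (cl_pull0 _ (h.hom a).2)))
  · have := h.num
    have h2 : (step E o P).1.dim = P.1.dim + E.dim := rfl
    rw [h2, hE.dim]
    omega
  · change (C.pull (fst P.1 E) P.2 + C.pull (snd P.1 E) o) ^ (m + 1) * _ = 0
    rw [dn_eq hE (H := H), h.prim a, Nat.cast_succ, sub_self, zero_smul, map_zero, add_zero]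
  · have hm : (-((m : ℚ) + 1)) ≠ 0 := by
      have : (0 : ℚ) ≤ m := Nat.cast_nonneg m
      intro h0
      linarith
    let f : C.A (P.1.prod E) →ₗ[ℚ] C.A P.1 := (-((m : ℚ) + 1))⁻¹ • C.push (fst P.1 E)
    have h1 : LinearIndependent ℚ (f ∘ fun a => dn o P.2 (v a) ((m : ℚ) + 1)) := by
      have h2 : (f ∘ fun a => dn o P.2 (v a) ((m : ℚ) + 1)) = v := by
        funext a
        change (-((m : ℚ) + 1))⁻¹ • C.push (fst P.1 E) (dn o P.2 (v a) ((m : ℚ) + 1)) = v a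
        unfold dn
        rw [map_add, map_smul, push_pull_O hE, ← map_mul, push_pull hE, zero_add, smul_smul,
          inv_mul_cancel₀ hm, one_smul]
      rw [h2]
      exact h.li
    exact LinearIndependent.of_comp f h1
  · unfold val
    change (-1 : ℝ) ^ (i + 1) * b (P.1.prod E) _
      ((C.pull (fst P.1 E) P.2 + C.pull (snd P.1 E) o) ^ m * _) = _
    rw [dn_val hb hE P.2 (h.hom a).2 (h.hom d).2 m]
    ring

lemma ups (hb : IsHeightTheory H b) (hE : IsPt C E o) (j : ℕ) : ∀ (P : Σ X : 𝒱.Obj, C.A X)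
    (i m : ℕ) (v : Fin r → C.A P.1), Good H P i m v →
    ∃ v' : Fin r → C.A ((step E o)^[j] P).1, Good H ((step E o)^[j] P) i (m + j) v' ∧
      ∃ c : ℝ, 0 < c ∧ ∀ a d, val b ((step E o)^[j] P) i (m + j) v' a d = c * val b P i m v a d := by
  induction j with
  | zero =>
    intro P i m x h
    exact ⟨x, h, 1, one_pos, fun a d => (one_mul _).symm⟩
  | succ j ih =>
    intro P i m x h
    obtain ⟨x1, h1, e1⟩ := up hb hE h
    obtain ⟨x2, h2, c, hc, e2⟩ := ih (step E o P) i (m + 1) x1 h1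
    have e : m + (j + 1) = m + 1 + j := by omega
    rw [e]
    refine ⟨x2, h2, c * ((m : ℝ) + 1), by positivity, fun a d => ?_⟩
    rw [mul_assoc, ← e1]
    exact e2 a d

lemma downs (hb : IsHeightTheory H b) (hE : IsPt C E o) (m : ℕ) : ∀ (P : Σ X : 𝒱.Obj, C.A X)
    (i : ℕ) (v : Fin r → C.A P.1), Good H P i m v →
    ∃ v' : Fin r → C.A ((step E o)^[m] P).1, Good H ((step E o)^[m] P) (i + m) 0 v' ∧
      ∃ c : ℝ, 0 < c ∧ ∀ a d, val b ((step E o)^[m] P) (i + m) 0 v' a d = c * val b P i m v a d := by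
  induction m with
  | zero =>
    intro P i x h
    exact ⟨x, h, 1, one_pos, fun a d => (one_mul _).symm⟩
  | succ m ih =>
    intro P i x h
    obtain ⟨x1, h1, e1⟩ := down hb hE h
    obtain ⟨x2, h2, c, hc, e2⟩ := ih (step E o P) (i + 1) x1 h1
    have e : i + (m + 1) = i + 1 + m := by omega
    rw [e]
    refine ⟨x2, h2, c * ((m : ℝ) + 2), by positivity, fun a d => ?_⟩
    rw [mul_assoc, ← e1]
    exact e2 a d

/-- primitive classes give primitive classes of the middle codimension of `X × E^(n+1)`,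
`n = dim X` -/
lemma to_middle (hb : IsHeightTheory H b) (hE : IsPt C E o) {X : 𝒱.Obj} {ℓ : C.A X} {i m : ℕ}
    {v : Fin r → C.A X} (h : Good H ⟨X, ℓ⟩ i m v) :
    ∃ v' : Fin r → C.A (power E o (X.dim + 1) X ℓ).1,
      Good H (power E o (X.dim + 1) X ℓ) (X.dim + 1) 0 v' ∧
      ∃ c : ℝ, 0 < c ∧ ∀ a d, val b (power E o (X.dim + 1) X ℓ) (X.dim + 1) 0 v' a d =
        c * val b ⟨X, ℓ⟩ i m v a d := by
  obtain ⟨x1, h1, c1, hc1, e1⟩ := ups hb hE i ⟨X, ℓ⟩ i m v h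
  obtain ⟨x2, h2, c2, hc2, e2⟩ := downs hb hE (m + i) _ i x1 h1
  have hn : 2 * i + m = X.dim + 1 := h.num
  have e : i + (m + i) = X.dim + 1 := by omega
  have e3 : (step E o)^[m + i] ((step E o)^[i] ⟨X, ℓ⟩) = power E o (X.dim + 1) X ℓ := by
    have e4 : X.dim + 1 = (m + i) + i := by omega
    unfold power
    rw [e4]
    exact (Function.iterate_add_apply (step E o) (m + i) i _).symm
  rw [e] at h2 e2
  rw [← e3]
  refine ⟨x2, h2, c2 * c1, mul_pos hc2 hc1, fun a d => ?_⟩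
  rw [e2, e1, mul_assoc]

end chain

end Pool.Agent.TH122.HN
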