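import Pool.Agent.TH122.HN.Main
import Pool.Agent.TH122.NorB

/-!
# The converse
-/

open CategoryTheory AlgebraicGeometry

universe u w

set_option autoImplicit false
set_option linter.unusedSectionVars false

namespace Pool.Agent.TH122.HN

open Pool.Agent.H914 Pool.Agent.H914.VarClass Pool.Agent.H914.VarClass.Obj Pool.Agent.W492.BB
  Pool.Agent.W550.Corr Pool.Agent.TH133 Pool.Agent.TH127.LW

section nor

variable {V : Type} [AddCommGroup V] [Module ℚ V]

/-- a finite-dimensional space contains a finitely generated subgroup which contains a multiple of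
each vector -/
theorem exists_lattice [Module.Finite ℚ V] : ∃ L : AddSubgroup V, L.FG ∧ Nor.Spans L := by
  obtain ⟨S, hS⟩ := Module.Finite.fg_top (R := ℚ) (M := V)
  refine ⟨AddSubgroup.closure (S : Set V), ⟨S, rfl⟩, ?_⟩
  let W : Submodule ℚ V :=
    { carrier := {x | ∃ N : ℕ, N ≠ 0 ∧ N • x ∈ AddSubgroup.closure (S : Set V)}
      add_mem' := by
        rintro x y ⟨N, hN, hx⟩ ⟨M, hM, hy⟩
        refine ⟨N * M, mul_ne_zero hN hM, ?_⟩
        rw [smul_add]
        refine add_mem ?_ ?_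
        · rw [mul_comm, mul_smul]
          exact AddSubgroup.nsmul_mem _ hx M
        · rw [mul_smul]
          exact AddSubgroup.nsmul_mem _ hy N
      zero_mem' := ⟨1, one_ne_zero, by rw [smul_zero]; exact zero_mem _⟩
      smul_mem' := by
        rintro q x ⟨N, hN, hx⟩
        refine ⟨N * q.den, mul_ne_zero hN q.den_nz, ?_⟩
        have h1 : (N * q.den) • (q • x) = q.num • (N • x) := by
          rw [← Nat.cast_smul_eq_nsmul ℚ, ← Int.cast_smul_eq_zsmul ℚ,
            ← Nat.cast_smul_eq_nsmul ℚ N x, smul_smul, smul_smul]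
          congr 1
          push_cast
          rw [mul_assoc, Rat.den_mul_eq_num, mul_comm]
        rw [h1]
        exact AddSubgroup.zsmul_mem _ hx _ }
  have hW : W = ⊤ := by
    rw [eq_top_iff, ← hS]
    refine Submodule.span_le.2 fun x hx => ?_
    exact ⟨1, one_ne_zero, by rw [one_smul]; exact AddSubgroup.subset_closure hx⟩
  intro v
  have hv : v ∈ W := by rw [hW]; trivial
  exact hv

end nor

variable {k : Type u} [Field k] {𝒱 : VarClass k} {C : TheoryData.{u, 0, 0} 𝒱 ℚ}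
  {K : Type w} [Field K]

/-- The space of all `x` in `Ch^m(P.1)^0` with `P.2 · x = 0`. -/
def primSpace (H : WeilTheoryData.{u, 0, w} C K) (P : Σ X : 𝒱.Obj, C.A X) (m : ℕ) :
    Submodule ℚ (C.A P.1) where
  carrier := {z | HomCycle H P.1 m z ∧ P.2 * z = 0}
  add_mem' := fun {z z'} hz hz' => ⟨⟨Submodule.add_mem _ hz.1.1 hz'.1.1,
    cl_add0 hz.1.2 hz'.1.2⟩, by rw [mul_add, hz.2, hz'.2, add_zero]⟩
  zero_mem' := ⟨⟨Submodule.zero_mem _, map_zero _⟩, mul_zero _⟩
  smul_mem' := fun q z hz => ⟨⟨Submodule.smul_mem _ _ hz.1.1, cl_smul0 q hz.1.2⟩, by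
    rw [mul_smul_comm, hz.2, smul_zero]⟩

/-- The Hodge index theorem with real coefficients for the variety `P.1`, the class `P.2` and the
pairing `b`: for `2 i + m = dim + 1` the form `(-1)^i b(x, P.2^m y)` is positive definite over the
real numbers on the space of all `x` in `Ch^i(P.1)^0` with `P.2^(m+1) x = 0`. -/
def RealHodgeIndex (H : WeilTheoryData.{u, 0, w} C K) (b : ∀ X : 𝒱.Obj, C.A X → C.A X → ℝ)
    (P : Σ X : 𝒱.Obj, C.A X) : Prop :=
  ∀ i m : ℕ, 2 * i + m = P.1.dim + 1 → ∀ (r : ℕ) (v : Fin r → C.A P.1),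
    (∀ a, HomCycle H P.1 i (v a)) → (∀ a, P.2 ^ (m + 1) * v a = 0) → LinearIndependent ℚ v →
      ∀ c : Fin r → ℝ, c ≠ 0 →
        0 < (-1 : ℝ) ^ i * ∑ a, ∑ d, c a * c d * b P.1 (v a) (P.2 ^ m * v d)

variable {H : WeilTheoryData.{u, 0, w} C K} {b : ∀ X : 𝒱.Obj, C.A X → C.A X → ℝ}

theorem hodge_of_real {X : 𝒱.Obj} {ℓ : C.A X} (h : RealHodgeIndex H b ⟨X, ℓ⟩) :
    HodgeIndex H X ℓ (b X) := by
  intro i m hnum x hx hx0 hprim
  have h1 := h i m hnum 1 (fun _ => x) (fun _ => hx) (fun _ => hprim)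
    ((linearIndependent_unique_iff (R := ℚ) (v := fun _ : Fin 1 => x)).2 hx0) (fun _ => 1)
    (fun h0 => one_ne_zero (congrFun h0 0))
  simpa using h1

theorem northcott_of_real (hb : IsHeightTheory H b) {P : Σ X : 𝒱.Obj, C.A X} {m : ℕ}
    (hm : 2 * m = P.1.dim + 1) (hfin : Module.Finite ℚ (primSpace H P m))
    (h : RealHodgeIndex H b P) : MiddleNorthcott H b P m := by
  obtain ⟨L, hfg, hsp⟩ := exists_lattice (V := primSpace H P m)
  have hV : ∀ z ∈ primSpace H P m, H.cl z = 0 := fun z hz => hz.1.2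
  have hs : ∀ x y, bil hb P.1 _ hV x y = bil hb P.1 _ hV y x :=
    fun v v' => hb.symm P.1 v.1 v'.1 v.2.1.2 v'.2.1.2
  have hpos : ∀ (r : ℕ) (v : Fin r → primSpace H P m), LinearIndependent ℚ v →
      ∀ c : Fin r → ℝ, c ≠ 0 → 0 < (-1 : ℝ) ^ m * Nor.Q (bil hb P.1 _ hV) v c c := by
    intro r v hv c hc
    have h1 := h m 0 hm r (fun a => (v a).1) (fun a => (v a).2.1)
      (fun a => by simpa using (v a).2.2)
      (hv.map' (primSpace H P m).subtype (Submodule.ker_subtype _)) c hc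
    simp only [pow_zero, one_mul] at h1
    exact h1
  have hN : Nor.Northcott (bil hb P.1 _ hV) L := by
    rcases neg_one_pow_eq_or ℝ m with h4 | h4
    · refine Nor.northcott_of hfg fun r v hv c hc => ?_
      have := hpos r v hv c hc
      rwa [h4, one_mul] at this
    · have h5 : Nor.Northcott (-(bil hb P.1 _ hV)) L := by
        refine Nor.northcott_of hfg fun r v hv c hc => ?_
        have := hpos r v hv c hc
        rw [h4] at this
        rw [Q_neg]
        linarith
      have h6 := northcott_neg h5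
      rwa [neg_neg] at h6
  refine ⟨L.map (primSpace H P m).subtype.toAddMonoidHom, fun x hx => ?_, fun T => ?_⟩
  · obtain ⟨N, hN0, hN1⟩ := hsp ⟨x, hx⟩
    exact ⟨N, hN0, _, hN1, rfl⟩
  · refine ((hN T).image Subtype.val).subset ?_
    rintro x ⟨⟨y, hy, rfl⟩, -, hT⟩
    exact ⟨y, ⟨hy, hT⟩, rfl⟩

end Pool.Agent.TH122.HN
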