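import Pool.Agent.TH127.LW.Defs
import Pool.Agent.TH122.NorA

/-!
# Height pairings on all varieties of a class, and Northcott's property: definitions
-/

open CategoryTheory AlgebraicGeometry

universe u w

set_option autoImplicit false

namespace Pool.Agent.TH122.HN

open Pool.Agent.H914 Pool.Agent.H914.VarClass Pool.Agent.H914.VarClass.Obj Pool.Agent.W492.BB
  Pool.Agent.W550.Corr Pool.Agent.TH133 Pool.Agent.TH127.LW

variable {k : Type u} [Field k] {𝒱 : VarClass k} {C : TheoryData.{u, 0, 0} 𝒱 ℚ}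
  {K : Type w} [Field K] (H : WeilTheoryData.{u, 0, w} C K)

/-- The class `x` is homologically trivial. -/
abbrev Triv {X : 𝒱.Obj} (x : C.A X) : Prop := H.cl x = 0

/-- The formal properties of the height pairings of the varieties of the class `𝒱`. Here `b X` is
the height pairing on `Ch^i(X)^0 × Ch^j(X)^0` for `i + j = dim X + 1`, extended by zero to the
pairs of homologically trivial classes of other codimensions; its values at other pairs of classes
are irrelevant. It is biadditive and symmetric, the multiplication with a class `a` is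
self-adjoint, and for the two projections `f` of a product `f_*` is adjoint to `f^*`. -/
structure IsHeightTheory (b : ∀ X : 𝒱.Obj, C.A X → C.A X → ℝ) : Prop where
  add_left : ∀ (X : 𝒱.Obj) (x x' y : C.A X), Triv H x → Triv H x' → Triv H y →
    b X (x + x') y = b X x y + b X x' y
  symm : ∀ (X : 𝒱.Obj) (x y : C.A X), Triv H x → Triv H y → b X x y = b X y x
  adj : ∀ (X : 𝒱.Obj) (a x y : C.A X), Triv H x → Triv H y →
    b X (C.mul a x) y = b X x (C.mul a y)
  proj_fst : ∀ (X Y : 𝒱.Obj) (z : C.A (X.prod Y)) (x : C.A X), Triv H z → Triv H x →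
    b X (C.down (fst X Y) z) x = b (X.prod Y) z (C.up (fst X Y) x)
  proj_snd : ∀ (X Y : 𝒱.Obj) (z : C.A (X.prod Y)) (y : C.A Y), Triv H z → Triv H y →
    b Y (C.down (snd X Y) z) y = b (X.prod Y) z (C.up (snd X Y) y)

section wrap

variable {H} {b : ∀ X : 𝒱.Obj, C.A X → C.A X → ℝ}

theorem IsHeightTheory.adj' (hb : IsHeightTheory H b) (X : 𝒱.Obj) (a x y : C.A X)
    (hx : H.cl x = 0) (hy : H.cl y = 0) : b X (a * x) y = b X x (a * y) :=
  hb.adj X a x y hx hy

theorem IsHeightTheory.proj_fst' (hb : IsHeightTheory H b) (X Y : 𝒱.Obj) (z : C.A (X.prod Y))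
    (x : C.A X) (hz : H.cl z = 0) (hx : H.cl x = 0) :
    b X (C.push (fst X Y) z) x = b (X.prod Y) z (C.pull (fst X Y) x) :=
  hb.proj_fst X Y z x hz hx

theorem IsHeightTheory.proj_snd' (hb : IsHeightTheory H b) (X Y : 𝒱.Obj) (z : C.A (X.prod Y))
    (y : C.A Y) (hz : H.cl z = 0) (hy : H.cl y = 0) :
    b Y (C.push (snd X Y) z) y = b (X.prod Y) z (C.pull (snd X Y) y) :=
  hb.proj_snd X Y z y hz hy

end wrap

/-- A variety `X` of the class together with a class `ℓ` on it is sent to the variety `X × E` with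
the class `p^* ℓ + q^* o`. -/
noncomputable def step (E : 𝒱.Obj) (o : C.A E) (P : Σ X : 𝒱.Obj, C.A X) : Σ X : 𝒱.Obj, C.A X :=
  ⟨P.1.prod E, C.up (fst P.1 E) P.2 + C.up (snd P.1 E) o⟩

/-- The variety `X × E^s` with the sum of the pull-backs of the class `ℓ` on `X` and of the class
`o` on the `s` factors `E`. -/
noncomputable def power (E : 𝒱.Obj) (o : C.A E) (s : ℕ) (X : 𝒱.Obj) (ℓ : C.A X) :
    Σ X : 𝒱.Obj, C.A X :=
  (step E o)^[s] ⟨X, ℓ⟩

/-- The class `x` on `P.1` lies in `Ch^m(P.1)^0` and `P.2 · x = 0`. -/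
def IsPrim (P : Σ X : 𝒱.Obj, C.A X) (m : ℕ) (x : C.A P.1) : Prop :=
  HomCycle H P.1 m x ∧ C.mul P.2 x = 0

/-- The height pairing `b` has Northcott's property on the primitive classes of codimension `m` on
the variety `P.1` with the class `P.2`: in the space of all `x` in `Ch^m(P.1)^0` with `P.2 · x = 0`
there is a subgroup `L` (in the intended use: the classes of integral cycles) which contains a
nonzero multiple of each element, such that for all `T` there are only finitely many `x` in `L`
with `|b(x, x)| ≤ T`. No sign of the pairing is assumed. -/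
def MiddleNorthcott (b : ∀ X : 𝒱.Obj, C.A X → C.A X → ℝ) (P : Σ X : 𝒱.Obj, C.A X) (m : ℕ) :
    Prop :=
  ∃ L : AddSubgroup (C.A P.1), (∀ x, IsPrim H P m x → ∃ N : ℕ, N ≠ 0 ∧ N • x ∈ L) ∧
    ∀ T : ℝ, {x | x ∈ L ∧ IsPrim H P m x ∧ |b P.1 x x| ≤ T}.Finite

end Pool.Agent.TH122.HN
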