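import Pool.Agent.TH122.HN.Chain

/-!
# Northcott's property in the middle codimension implies the Hodge index theorem
-/

open CategoryTheory AlgebraicGeometry

universe u w

set_option autoImplicit false
set_option linter.unusedSectionVars false

namespace Pool.Agent.TH122.HN

open Pool.Agent.H914 Pool.Agent.H914.VarClass Pool.Agent.H914.VarClass.Obj Pool.Agent.W492.BB
  Pool.Agent.W550.Corr Pool.Agent.TH133 Pool.Agent.TH127.LW

section nor

variable {V : Type} [AddCommGroup V] [Module ℚ V]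

theorem Q_neg {r : ℕ} (b : V →ₗ[ℚ] V →ₗ[ℚ] ℝ) (v : Fin r → V) (c d : Fin r → ℝ) :
    Nor.Q (-b) v c d = - Nor.Q b v c d := by
  unfold Nor.Q
  simp only [← Finset.sum_neg_distrib]
  refine Finset.sum_congr rfl fun i _ => Finset.sum_congr rfl fun j _ => ?_
  simp only [LinearMap.neg_apply]
  ring

theorem northcott_neg {b : V →ₗ[ℚ] V →ₗ[ℚ] ℝ} {L : AddSubgroup V} (h : Nor.Northcott b L) :
    Nor.Northcott (-b) L := by
  intro T
  have h1 := h T
  have h2 : {x : V | x ∈ L ∧ |(-b) x x| ≤ T} = {x : V | x ∈ L ∧ |b x x| ≤ T} := by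
    ext x
    simp only [LinearMap.neg_apply, abs_neg]
  rw [h2]
  exact h1

theorem definite {b : V →ₗ[ℚ] V →ₗ[ℚ] ℝ} (hs : ∀ x y, b x y = b y x) {L : AddSubgroup V}
    (hL : Nor.Spans L) (hN : Nor.Northcott b L) :
    ∃ ε : ℝ, (ε = 1 ∨ ε = -1) ∧ ∀ (r : ℕ) (v : Fin r → V), LinearIndependent ℚ v →
        ∀ c : Fin r → ℝ, c ≠ 0 → 0 < ε * Nor.Q b v c c := by
  rcases Nor.nor_pos_or_neg hs hN hL with h | h
  · refine ⟨1, Or.inl rfl, fun r v hv c hc => ?_⟩
    rw [one_mul]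
    exact Nor.Q_pos hs h hN hL v hv c hc
  · refine ⟨-1, Or.inr rfl, fun r v hv c hc => ?_⟩
    have h1 := Nor.Q_pos (b := -b) (fun x y => by simp only [LinearMap.neg_apply, hs x y])
      (fun v hv => by simpa only [LinearMap.neg_apply, Left.neg_pos_iff] using h v hv)
      (northcott_neg hN) hL v hv c hc
    rw [Q_neg] at h1
    linarith

end nor

variable {k : Type u} [Field k] {𝒱 : VarClass k} {C : TheoryData.{u, 0, 0} 𝒱 ℚ}
  [hC : IsChowProj C] {K : Type w} [Field K]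
  {H : WeilTheoryData.{u, 0, w} C K} [hH : IsWeilProj H] {b : ∀ X : 𝒱.Obj, C.A X → C.A X → ℝ}
  {E : 𝒱.Obj} {o : C.A E}

include hC hH

/-- the class `1 × e` on `X × E` -/
lemma base (hb : IsHeightTheory H b) (hE : IsPt C E o) {e : C.A E} (he : HomCycle H E 1 e)
    (hee : b E e e < 0) {X : 𝒱.Obj} {ℓ : C.A X} (hℓ : C.Deg 1 ℓ) {d : ℚ} (hd : 0 < d)
    (hdeg : HasDegree C (ℓ ^ X.dim) d) :
    ∃ v : Fin 1 → C.A (step E o ⟨X, ℓ⟩).1, Good H (step E o ⟨X, ℓ⟩) 1 X.dim v ∧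
      0 < val b (step E o ⟨X, ℓ⟩) 1 X.dim v 0 0 := by
  have hT : IsTheory C 1 := hC.toIsChow.isTheory
  have hu : C.pull (snd X E) o * C.pull (snd X E) e = 0 := by
    rw [← map_mul, mul_top hE.dim hE.deg (by simpa using he.1), map_zero]
  have hcl : H.cl (C.pull (snd X E) e) = 0 := cl_pull0 _ he.2
  have hv : b (X.prod E) (C.pull (snd X E) e)
      ((C.pull (fst X E) ℓ + C.pull (snd X E) o) ^ X.dim * C.pull (snd X E) e) =
      d * b E e e := by
    rw [a3' (comm _) hu, ← hb.adj' _ _ _ _ hcl hcl, ← map_pow,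
      ← hb.proj_snd' X E _ e (cl_mul0 hcl) he.2, C.proj_right, (hdeg E).1, smul_mul_assoc, one_mul,
      smul_left hb d he.2 he.2]
  have hd' : (0 : ℝ) < d := by exact_mod_cast hd
  have hneg : b (X.prod E) (C.pull (snd X E) e)
      ((C.pull (fst X E) ℓ + C.pull (snd X E) o) ^ X.dim * C.pull (snd X E) e) < 0 := by
    rw [hv]
    exact mul_neg_of_pos_of_neg hd' hee
  refine ⟨fun _ => C.pull (snd X E) e, ⟨step_pol (H := H) hE hℓ,
    fun _ => ⟨C.pull_mem _ he.1, hcl⟩, ?_, fun _ => ?_, ?_⟩, ?_⟩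
  · have h2 : (step E o ⟨X, ℓ⟩).1.dim = X.dim + E.dim := rfl
    rw [h2, hE.dim]
    omega
  · change (C.pull (fst X E) ℓ + C.pull (snd X E) o) ^ (X.dim + 1) * C.pull (snd X E) e = 0
    rw [a3' (comm _) hu, ← map_pow]
    have h1 : C.Deg ((X.dim : ℤ) + 1) (ℓ ^ (X.dim + 1)) := by
      have h2 : ∀ m : ℕ, C.Deg (m : ℤ) (ℓ ^ m) := by
        intro m
        induction m with
        | zero =>
          rw [pow_zero, Nat.cast_zero]
          exact C.one_mem X
        | succ m ih =>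
          rw [pow_succ, Nat.cast_succ]
          exact C.mul_mem ih hℓ
      have h3 := h2 (X.dim + 1)
      rw [Nat.cast_succ] at h3
      exact h3
    rw [hC.gr_top X _ _ h1 (by omega), map_zero, zero_mul]
  · have h0 : C.pull (snd X E) e ≠ (0 : C.A (X.prod E)) := by
      intro h0
      rw [h0, mul_zero, zero_left hb (map_zero _)] at hneg
      exact lt_irrefl _ hneg
    exact (linearIndependent_unique_iff (R := ℚ) (v := fun _ : Fin 1 => C.pull (snd X E) e)).2 h0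
  · unfold val
    change 0 < (-1 : ℝ) ^ 1 * b (X.prod E) (C.pull (snd X E) e)
      ((C.pull (fst X E) ℓ + C.pull (snd X E) o) ^ X.dim * C.pull (snd X E) e)
    linarith

/-- one sign on the primitive classes of the middle codimension -/
lemma sign (hb : IsHeightTheory H b) {P : Σ X : 𝒱.Obj, C.A X} {m : ℕ}
    (hN : MiddleNorthcott H b P m) {r : ℕ} {v : Fin r → C.A P.1} (hv : Good H P m 0 v)
    {w : Fin 1 → C.A P.1} (hw : Good H P m 0 w) (h : 0 < val b P m 0 w 0 0) (c : Fin r → ℝ)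
    (hc : c ≠ 0) : 0 < ∑ i, ∑ j, c i * c j * val b P m 0 v i j := by
  obtain ⟨L, hL, hfin⟩ := hN
  let V : Submodule ℚ (C.A P.1) :=
    { carrier := {z | HomCycle H P.1 m z ∧ P.2 * z = 0}
      add_mem' := fun {z z'} hz hz' => ⟨⟨Submodule.add_mem _ hz.1.1 hz'.1.1,
        cl_add0 hz.1.2 hz'.1.2⟩, by rw [mul_add, hz.2, hz'.2, add_zero]⟩
      zero_mem' := ⟨⟨Submodule.zero_mem _, map_zero _⟩, mul_zero _⟩
      smul_mem' := fun q z hz => ⟨⟨Submodule.smul_mem _ _ hz.1.1, cl_smul0 q hz.1.2⟩, by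
        rw [mul_smul_comm, hz.2, smul_zero]⟩ }
  have hV : ∀ z ∈ V, H.cl z = 0 := fun z hz => hz.1.2
  have hsp : Nor.Spans (L.comap V.subtype.toAddMonoidHom) := by
    intro v
    obtain ⟨N, hN0, hN1⟩ := hL v.1 v.2
    exact ⟨N, hN0, hN1⟩
  have hNor : Nor.Northcott (bil hb P.1 V hV) (L.comap V.subtype.toAddMonoidHom) := by
    intro T
    refine Set.Finite.of_finite_image ((hfin T).subset ?_) (Set.injOn_of_injective
      (Subtype.val_injective : Function.Injective (Subtype.val : V → C.A P.1)))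
    rintro _ ⟨v, ⟨hv1, hv2⟩, rfl⟩
    exact ⟨hv1, v.2, hv2⟩
  obtain ⟨ε, hε, hdef⟩ := definite (b := bil hb P.1 V hV)
    (fun v v' => hb.symm P.1 v.1 v'.1 v.2.1.2 v'.2.1.2) hsp hNor
  have key : ∀ {s : ℕ} {z : Fin s → C.A P.1}, Good H P m 0 z → ∀ c : Fin s → ℝ, c ≠ 0 →
      0 < ε * ((-1 : ℝ) ^ m * ∑ i, ∑ j, c i * c j * val b P m 0 z i j) := by
    intro s z hz c hc
    have hzV : ∀ a, z a ∈ V := fun a => ⟨hz.hom a, by simpa using hz.prim a⟩
    have hli : LinearIndependent ℚ (fun a => (⟨z a, hzV a⟩ : V)) :=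
      LinearIndependent.of_comp V.subtype hz.li
    have h1 := hdef s _ hli c hc
    have h2 : (-1 : ℝ) ^ m * ∑ i, ∑ j, c i * c j * val b P m 0 z i j =
        Nor.Q (bil hb P.1 V hV) (fun a => (⟨z a, hzV a⟩ : V)) c c := by
      unfold Nor.Q
      rw [Finset.mul_sum]
      refine Finset.sum_congr rfl fun i _ => ?_
      rw [Finset.mul_sum]
      refine Finset.sum_congr rfl fun j _ => ?_
      rw [bil_apply]
      unfold val
      rw [pow_zero, one_mul]
      rcases neg_one_pow_eq_or ℝ m with h4 | h4 <;> rw [h4] <;> ring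
    rw [h2]
    exact h1
  have k1 := key hv c hc
  have k2 := key hw (fun _ => 1) (fun h0 => one_ne_zero (congrFun h0 0))
  simp only [Finset.univ_unique, Fin.default_eq_zero, Fin.isValue, Finset.sum_singleton, one_mul]
    at k2
  rw [← mul_assoc] at k1 k2
  have k3 : 0 < ε * (-1) ^ m := (pos_iff_pos_of_mul_pos k2).2 h
  exact (mul_pos_iff_of_pos_left k3).1 k1

/-- the Hodge index theorem with real coefficients -/
theorem main_real (hb : IsHeightTheory H b) (hE : IsPt C E o) {e : C.A E} (he : HomCycle H E 1 e)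
    (hee : b E e e < 0) {X : 𝒱.Obj} {ℓ : C.A X} (hℓ : C.Deg 1 ℓ) {d : ℚ} (hd : 0 < d)
    (hdeg : HasDegree C (ℓ ^ X.dim) d)
    (hN : MiddleNorthcott H b (power E o (X.dim + 1) X ℓ) (X.dim + 1))
    (i m : ℕ) (hnum : 2 * i + m = X.dim + 1) (r : ℕ) (v : Fin r → C.A X)
    (hv : ∀ a, HomCycle H X i (v a)) (hprim : ∀ a, ℓ ^ (m + 1) * v a = 0)
    (hli : LinearIndependent ℚ v) (c : Fin r → ℝ) (hc : c ≠ 0) :
    0 < (-1 : ℝ) ^ i * ∑ a, ∑ d, c a * c d * b X (v a) (ℓ ^ m * v d) := by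
  obtain ⟨v1, g, hg⟩ := base hb hE he hee hℓ hd hdeg
  obtain ⟨w, hw, t, ht, ew⟩ := downs hb hE X.dim _ 1 _ g
  rw [add_comm 1 X.dim] at hw ew
  obtain ⟨x', hx', t', ht', ex⟩ := to_middle (E := E) (o := o) hb hE
    (⟨hℓ, hv, hnum, hprim, hli⟩ : Good H ⟨X, ℓ⟩ i m v)
  have hw1 : 0 < val b (power E o (X.dim + 1) X ℓ) (X.dim + 1) 0 w 0 0 := by
    have h1 : val b (power E o (X.dim + 1) X ℓ) (X.dim + 1) 0 w 0 0 = _ := ew 0 0
    rw [h1]
    exact mul_pos ht hg
  have h2 := sign hb hN hx' (show Good H (power E o (X.dim + 1) X ℓ) (X.dim + 1) 0 w from hw) hw1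
    c hc
  have h3 : ∑ a, ∑ d, c a * c d * val b (power E o (X.dim + 1) X ℓ) (X.dim + 1) 0 x' a d =
      t' * ((-1 : ℝ) ^ i * ∑ a, ∑ d, c a * c d * b X (v a) (ℓ ^ m * v d)) := by
    rw [Finset.mul_sum, Finset.mul_sum]
    refine Finset.sum_congr rfl fun a _ => ?_
    rw [Finset.mul_sum, Finset.mul_sum]
    refine Finset.sum_congr rfl fun d _ => ?_
    rw [ex]
    unfold val
    ring
  rw [h3] at h2
  exact (mul_pos_iff_of_pos_left ht').1 h2

end Pool.Agent.TH122.HN
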