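import Mathlib

/-!
# Identities in commutative rings with an element of square zero
-/

set_option autoImplicit false

namespace Pool.Agent.TH122.HN

theorem a1 {R : Type*} [CommRing R] [Algebra ℚ R] {O : R} (hO : O * O = 0) (P u : R) (m : ℕ) :
    (P + O) ^ (m + 1) * u = P ^ (m + 1) * u + ((m : ℚ) + 1) • ((P ^ m * u) * O) := by
  induction m with
  | zero => simp only [Algebra.smul_def, map_add, map_one, map_zero, Nat.cast_zero]; ring
  | succ m ih =>
    have h : (P + O) ^ (m + 1 + 1) * u = (P + O) * ((P + O) ^ (m + 1) * u) := by ring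
    rw [h, ih]
    simp only [Algebra.smul_def, map_add, map_one, map_natCast, Nat.cast_succ]
    linear_combination ((m : R) + 1) * P ^ m * u * hO

theorem a2 {R : Type*} [CommRing R] [Algebra ℚ R] {O : R} (hO : O * O = 0) (P u : R) (q : ℚ)
    (m : ℕ) : (P + O) ^ m * (P * u + (-q) • (u * O)) =
      P ^ (m + 1) * u + ((m : ℚ) - q) • ((P ^ m * u) * O) := by
  induction m with
  | zero =>
    simp only [Algebra.smul_def, map_sub, map_neg, map_zero, Nat.cast_zero]
    ring
  | succ m ih =>
    have h : (P + O) ^ (m + 1) * (P * u + (-q) • (u * O)) =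
        (P + O) * ((P + O) ^ m * (P * u + (-q) • (u * O))) := by ring
    rw [h, ih]
    simp only [Algebra.smul_def, map_add, map_sub, map_one, map_natCast, Nat.cast_succ]
    linear_combination ((m : R) - algebraMap ℚ R q) * P ^ m * u * hO

theorem a1' {R : Type*} [i : Ring R] [j : Algebra ℚ R] (hc : ∀ a b : R, a * b = b * a) {O : R}
    (hO : O * O = 0) (P u : R) (m : ℕ) :
    (P + O) ^ (m + 1) * u = P ^ (m + 1) * u + ((m : ℚ) + 1) • ((P ^ m * u) * O) :=
  @a1 R { i with mul_comm := hc } j O hO P u m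

theorem a2' {R : Type*} [i : Ring R] [j : Algebra ℚ R] (hc : ∀ a b : R, a * b = b * a) {O : R}
    (hO : O * O = 0) (P u : R) (q : ℚ) (m : ℕ) : (P + O) ^ m * (P * u + (-q) • (u * O)) =
      P ^ (m + 1) * u + ((m : ℚ) - q) • ((P ^ m * u) * O) :=
  @a2 R { i with mul_comm := hc } j O hO P u q m

theorem a3' {R : Type*} [i : Ring R] (hc : ∀ a b : R, a * b = b * a) {O u : R}
    (hu : O * u = 0) (P : R) (m : ℕ) : (P + O) ^ m * u = P ^ m * u := by
  induction m with
  | zero => rw [pow_zero, pow_zero]
  | succ m ih =>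
    rw [pow_succ', mul_assoc, ih, add_mul, ← mul_assoc, ← pow_succ', ← mul_assoc, hc O, mul_assoc,
      hu, mul_zero, add_zero]

end Pool.Agent.TH122.HN
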