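import Pool.Agent.TH122.HN.Step
import Pool.Agent.TH122.HN.Ring

/-!
# The product with a curve
-/

open CategoryTheory AlgebraicGeometry

universe u w

set_option autoImplicit false
set_option linter.unusedSectionVars false

namespace Pool.Agent.TH122.HN

open Pool.Agent.H914 Pool.Agent.H914.VarClass Pool.Agent.H914.VarClass.Obj Pool.Agent.W492.BB
  Pool.Agent.W550.Corr Pool.Agent.TH133 Pool.Agent.TH127.LW

variable {k : Type u} [Field k] {𝒱 : VarClass k} {C : TheoryData.{u, 0, 0} 𝒱 ℚ}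
  [hC : IsChowProj C] {K : Type w} [Field K]
  {H : WeilTheoryData.{u, 0, w} C K} [hH : IsWeilProj H] {b : ∀ X : 𝒱.Obj, C.A X → C.A X → ℝ}

/-- the data of a curve `E` with a class `o` of degree one -/
structure IsPt (C : TheoryData.{u, 0, 0} 𝒱 ℚ) (E : 𝒱.Obj) (o : C.A E) : Prop where
  dim : E.dim = 1
  deg : C.Deg 1 o
  one : HasDegree C o 1

section ch

include hC

lemma comm (X : 𝒱.Obj) (x y : C.A X) : x * y = y * x := hC.toIsChow.mul_comm x y

variable {E : 𝒱.Obj} {o : C.A E}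

lemma mul_top {z w : C.A E} (hE : E.dim = 1) (hz : C.Deg 1 z) (hw : C.Deg 1 w) : z * w = 0 := by
  have hT : IsTheory C 1 := hC.toIsChow.isTheory
  have h : C.Deg (1 + 1) (z * w) := hT.isGradedRing.mul_mem hz hw
  refine hC.gr_top E _ _ h ?_
  rw [hE]
  norm_num

lemma O_sq (hE : IsPt C E o) (Z : 𝒱.Obj) :
    C.pull (snd Z E) o * C.pull (snd Z E) o = 0 := by
  rw [← map_mul, mul_top hE.dim hE.deg hE.deg, map_zero]

lemma push_pull_O (hE : IsPt C E o) (Z : 𝒱.Obj) (x : C.A Z) :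
    C.push (fst Z E) (C.pull (fst Z E) x * C.pull (snd Z E) o) = x := by
  have hT : IsTheory C 1 := hC.toIsChow.isTheory
  rw [C.proj_left, (hE.one Z).2, one_smul, mul_one]

lemma push_pull (hE : IsPt C E o) (Z : 𝒱.Obj) (x : C.A Z) :
    C.push (fst Z E) (C.pull (fst Z E) x) = 0 := by
  have hT : IsTheory C 1 := hC.toIsChow.isTheory
  have h1 : C.push (fst Z E) (1 : C.A (Z.prod E)) = 0 := by
    have h := C.push_mem (fst Z E) (C.one_mem (Z.prod E))
    have hn : (0 : ℤ) + 1 * (Z.dim - (Z.prod E).dim) < 0 := by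
      rw [dim_prod, hE.dim]
      push_cast
      omega
    rw [C.gr_neg Z _ hn] at h
    exact (Submodule.mem_bot ℚ).1 h
  have h2 := C.proj_left (fst Z E) (1 : C.A (Z.prod E)) x
  rw [mul_one, h1, mul_zero] at h2
  exact h2

end ch

section ht

variable {E : 𝒱.Obj} {o : C.A E}

include hC hH

lemma f1 (hb : IsHeightTheory H b) (hE : IsPt C E o) {Z : 𝒱.Obj} {x y : C.A Z}
    (hx : H.cl x = 0) (hy : H.cl y = 0) :
    b (Z.prod E) (C.pull (fst Z E) x) (C.pull (fst Z E) y) = 0 := by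
  rw [← hb.proj_fst' Z E _ y (cl_pull0 _ hx) hy, push_pull hE, zero_left hb hy]

lemma f2 (hb : IsHeightTheory H b) (hE : IsPt C E o) {Z : 𝒱.Obj} {x y : C.A Z}
    (hx : H.cl x = 0) (hy : H.cl y = 0) :
    b (Z.prod E) (C.pull (fst Z E) x * C.pull (snd Z E) o) (C.pull (fst Z E) y) = b Z x y := by
  rw [← hb.proj_fst' Z E _ y (cl_mul0' (cl_pull0 _ hx)) hy, push_pull_O hE]

lemma f3 (hb : IsHeightTheory H b) (hE : IsPt C E o) {Z : 𝒱.Obj} {x y : C.A Z}
    (hx : H.cl x = 0) (hy : H.cl y = 0) :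
    b (Z.prod E) (C.pull (fst Z E) x) (C.pull (fst Z E) y * C.pull (snd Z E) o) = b Z x y := by
  rw [hb.symm _ _ _ (cl_pull0 _ hx) (cl_mul0' (cl_pull0 _ hy)), f2 hb hE hy hx,
    hb.symm Z y x hy hx]

lemma f4 (hb : IsHeightTheory H b) (hE : IsPt C E o) {Z : 𝒱.Obj} {x y : C.A Z}
    (hx : H.cl x = 0) (hy : H.cl y = 0) :
    b (Z.prod E) (C.pull (fst Z E) x * C.pull (snd Z E) o)
      (C.pull (fst Z E) y * C.pull (snd Z E) o) = 0 := by
  rw [comm _ (C.pull (fst Z E) x) (C.pull (snd Z E) o),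
    hb.adj' _ _ _ _ (cl_pull0 _ hx) (cl_mul0' (cl_pull0 _ hy)),
    comm _ (C.pull (fst Z E) y) (C.pull (snd Z E) o), ← mul_assoc, O_sq hE, zero_mul,
    zero_right hb (cl_pull0 _ hx)]

end ht

end Pool.Agent.TH122.HN
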