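import Pool.Agent.TH122.HN.Defs

/-!
# The step from `X` to `X × E`
-/

open CategoryTheory AlgebraicGeometry

universe u w

set_option autoImplicit false
set_option linter.unusedSectionVars false

namespace Pool.Agent.TH122.HN

open Pool.Agent.H914 Pool.Agent.H914.VarClass Pool.Agent.H914.VarClass.Obj Pool.Agent.W492.BB
  Pool.Agent.W550.Corr Pool.Agent.TH133 Pool.Agent.TH127.LW

variable {k : Type u} [Field k] {𝒱 : VarClass k} {C : TheoryData.{u, 0, 0} 𝒱 ℚ}
  {K : Type w} [Field K]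
  {H : WeilTheoryData.{u, 0, w} C K} {b : ∀ X : 𝒱.Obj, C.A X → C.A X → ℝ}

section basic

lemma cl_mul0 {X : 𝒱.Obj} {a x : C.A X} (hx : H.cl x = 0) : H.cl (a * x) = 0 := by
  rw [map_mul, hx, mul_zero]

lemma cl_mul0' {X : 𝒱.Obj} {a x : C.A X} (hx : H.cl x = 0) : H.cl (x * a) = 0 := by
  rw [map_mul, hx, zero_mul]

lemma cl_smul0 {X : 𝒱.Obj} (q : ℚ) {x : C.A X} (hx : H.cl x = 0) : H.cl (q • x) = 0 := by
  rw [Algebra.smul_def]
  exact cl_mul0 hx

lemma cl_add0 {X : 𝒱.Obj} {x y : C.A X} (hx : H.cl x = 0) (hy : H.cl y = 0) :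
    H.cl (x + y) = 0 := by
  rw [map_add, hx, hy, add_zero]

lemma cl_pull0 [hH : IsWeilProj H] {X Y : 𝒱.Obj} (f : X ⟶ Y) {z : C.A Y} (hz : H.cl z = 0) :
    H.cl (C.pull f z) = 0 := by
  have h : H.cl (C.pull f z) = H.pull f (H.cl z) := hH.toIsWeil.isClassMap.cl_pull f z
  rw [h, hz, map_zero]

/-- the space of homologically trivial classes -/
def triv (H : WeilTheoryData.{u, 0, w} C K) (X : 𝒱.Obj) : Submodule ℚ (C.A X) where
  carrier := {x | H.cl x = 0}
  add_mem' := fun ha hb => cl_add0 ha hb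
  zero_mem' := map_zero _
  smul_mem' := fun q _ hx => cl_smul0 q hx

end basic

section bilinear

lemma add_right (hb : IsHeightTheory H b) {X : 𝒱.Obj} {x y y' : C.A X} (hx : H.cl x = 0)
    (hy : H.cl y = 0) (hy' : H.cl y' = 0) : b X x (y + y') = b X x y + b X x y' := by
  rw [hb.symm X x (y + y') hx (cl_add0 hy hy'), hb.add_left X y y' x hy hy' hx,
    hb.symm X y x hy hx, hb.symm X y' x hy' hx]

lemma smul_left (hb : IsHeightTheory H b) {X : 𝒱.Obj} (q : ℚ) {x y : C.A X} (hx : H.cl x = 0)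
    (hy : H.cl y = 0) : b X (q • x) y = q * b X x y := by
  let f : triv H X →+ ℝ :=
    { toFun := fun z => b X z.1 y
      map_zero' := by
        have h := hb.add_left X 0 0 y (map_zero _) (map_zero _) hy
        rw [add_zero] at h
        change b X 0 y = 0
        linarith
      map_add' := fun z z' => hb.add_left X z.1 z'.1 y z.2 z'.2 hy }
  have h := map_rat_smul f q ⟨x, hx⟩
  have h2 : f (q • (⟨x, hx⟩ : triv H X)) = b X (q • x) y := rfl
  have h3 : f (⟨x, hx⟩ : triv H X) = b X x y := rfl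
  rw [h2, h3] at h
  rw [h, Rat.smul_def]

lemma smul_right (hb : IsHeightTheory H b) {X : 𝒱.Obj} (q : ℚ) {x y : C.A X} (hx : H.cl x = 0)
    (hy : H.cl y = 0) : b X x (q • y) = q * b X x y := by
  rw [hb.symm X x (q • y) hx (cl_smul0 q hy), smul_left hb q hy hx, hb.symm X y x hy hx]

lemma zero_left (hb : IsHeightTheory H b) {X : 𝒱.Obj} {y : C.A X} (hy : H.cl y = 0) :
    b X 0 y = 0 := by
  have h := hb.add_left X 0 0 y (map_zero _) (map_zero _) hy
  rw [add_zero] at h
  linarith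

lemma zero_right (hb : IsHeightTheory H b) {X : 𝒱.Obj} {y : C.A X} (hy : H.cl y = 0) :
    b X y 0 = 0 := by
  rw [hb.symm X y 0 hy (map_zero _), zero_left hb hy]

/-- the pairing as a bilinear map on a space of homologically trivial classes -/
noncomputable def bil (hb : IsHeightTheory H b) (X : 𝒱.Obj) (V : Submodule ℚ (C.A X))
    (hV : ∀ x ∈ V, H.cl x = 0) : V →ₗ[ℚ] V →ₗ[ℚ] ℝ :=
  LinearMap.mk₂ ℚ (fun x y => b X x.1 y.1)
    (fun x x' y => hb.add_left X x.1 x'.1 y.1 (hV _ x.2) (hV _ x'.2) (hV _ y.2))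
    (fun q x y => by
      rw [Rat.smul_def]
      exact smul_left hb q (hV _ x.2) (hV _ y.2))
    (fun x y y' => add_right hb (hV _ x.2) (hV _ y.2) (hV _ y'.2))
    (fun q x y => by
      rw [Rat.smul_def]
      exact smul_right hb q (hV _ x.2) (hV _ y.2))

lemma bil_apply (hb : IsHeightTheory H b) (X : 𝒱.Obj) (V : Submodule ℚ (C.A X))
    (hV : ∀ x ∈ V, H.cl x = 0) (x y : V) : bil hb X V hV x y = b X x.1 y.1 := rfl

end bilinear

end Pool.Agent.TH122.HN
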