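import Pool.Agent.TH122.HN.Conv

/-!
# The statements
-/

open CategoryTheory AlgebraicGeometry

universe u w

set_option autoImplicit false

namespace Pool.Agent.TH122.HN

open Pool.Agent.H914 Pool.Agent.H914.VarClass Pool.Agent.H914.VarClass.Obj Pool.Agent.W492.BB
  Pool.Agent.W550.Corr Pool.Agent.TH133 Pool.Agent.TH127.LW

variable {k : Type u} [Field k] {𝒱 : VarClass k} {C : TheoryData.{u, 0, 0} 𝒱 ℚ}
  {K : Type w} [Field K] (H : WeilTheoryData.{u, 0, w} C K)

/-- `E` is a curve, `o` a zero-cycle of degree one on `E`, and `e` a homologically trivial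
zero-cycle with `b(e, e) < 0` (over a number field: a class of degree zero which is not torsion,
by Hriljac, Faltings, Néron and Tate). -/
structure IsTestCurve (b : ∀ X : 𝒱.Obj, C.A X → C.A X → ℝ) (E : 𝒱.Obj) (o e : C.A E) : Prop where
  dim : E.dim = 1
  deg : C.Deg 1 o
  one : HasDegree C o 1
  hom : HomCycle H E 1 e
  neg : b E e e < 0

/-- `P.2` is a divisor class on `P.1` whose top self-intersection number is positive. -/
def IsPositive (P : Σ X : 𝒱.Obj, C.A X) : Prop :=
  C.Deg 1 P.2 ∧ ∃ d : ℚ, 0 < d ∧ HasDegree C (P.2 ^ P.1.dim) d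

/-- The injectivity in Q1 for the variety `P.1` and the class `P.2`: for `2 i + m = dim + 1` the
multiplication with `P.2 ^ m` is injective on `Ch^i(P.1)^0`. -/
def LefschetzInjective (P : Σ X : 𝒱.Obj, C.A X) : Prop :=
  ∀ i m : ℕ, 2 * i + m = P.1.dim + 1 → ∀ x : C.A P.1, HomCycle H P.1 i x → P.2 ^ m * x = 0 → x = 0

/-- `S` is a family of pairs `(X, ℓ)` with positive divisor classes `ℓ`, closed under
`(X, ℓ) ↦ (X × E, ℓ + o)`, and for its members of odd dimension `2 m - 1` the space of all `x` in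
`Ch^m(X)^0` with `ℓ x = 0` is finite-dimensional (contained in the span of a finite set). -/
structure IsFamily (E : 𝒱.Obj) (o : C.A E) (S : Set (Σ X : 𝒱.Obj, C.A X)) : Prop where
  pos : ∀ P ∈ S, IsPositive P
  step : ∀ P ∈ S, step E o P ∈ S
  fin : ∀ P ∈ S, ∀ m : ℕ, 2 * m = P.1.dim + 1 → ∃ T : Finset (C.A P.1), ∀ x,
    IsPrim H P m x → x ∈ Submodule.span ℚ (T : Set (C.A P.1))

variable {H} in
theorem IsFamily.finite {E : 𝒱.Obj} {o : C.A E} {S : Set (Σ X : 𝒱.Obj, C.A X)}
    (h : IsFamily H E o S) {P : Σ X : 𝒱.Obj, C.A X} (hP : P ∈ S) {m : ℕ}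
    (hm : 2 * m = P.1.dim + 1) : Module.Finite ℚ (primSpace H P m) := by
  obtain ⟨T, hT⟩ := h.fin P hP m hm
  have h1 : primSpace H P m ≤ Submodule.span ℚ (T : Set (C.A P.1)) :=
    fun x hx => hT x hx
  have h2 : FiniteDimensional ℚ (Submodule.span ℚ (T : Set (C.A P.1))) :=
    FiniteDimensional.span_finset ℚ T
  exact Submodule.finiteDimensional_of_le h1

end Pool.Agent.TH122.HN
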